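import Pool.Agent.helper80.HM.SpecC

/-! Row PAD: fixing inputs of a hereditarily monotone circuit to zero. -/

set_option autoImplicit false

namespace Pool.Agent.HM

theorem PAD_mono {m n : ℕ} : Monotone (pad : (Fin m → Bool) → Fin n → Bool) := by
  intro x y hxy i
  unfold pad
  split_ifs with h
  · exact hxy _
  · exact le_refl _

theorem PAD_val_castSucc {a n s d : ℕ} (C : HCircuit a n s) (hd : d ≤ a) (w : Fin d → Fin (n + s))
    (φ : (Fin d → Bool) → Bool) (x : Fin n → Bool) (i : Fin (n + s)) :
    (HCircuit.snoc C hd w φ).val x (Fin.castSucc i) = C.val x i := by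
  change Fin.snoc (α := fun _ => Bool) (C.val x) _ (Fin.castSucc i) = _
  rw [Fin.snoc_castSucc]

theorem PAD_val_last {a n s d : ℕ} (C : HCircuit a n s) (hd : d ≤ a) (w : Fin d → Fin (n + s))
    (φ : (Fin d → Bool) → Bool) (x : Fin n → Bool) :
    (HCircuit.snoc C hd w φ).val x (Fin.last (n + s)) = φ fun j => C.val x (w j) := by
  change Fin.snoc (α := fun _ => Bool) (C.val x) _ (Fin.last (n + s)) = _
  rw [Fin.snoc_last]

open Classical in
theorem PAD_depth_castSucc {a n s d : ℕ} (C : HCircuit a n s) (hd : d ≤ a) (w : Fin d → Fin (n + s))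
    (φ : (Fin d → Bool) → Bool) (i : Fin (n + s)) :
    (HCircuit.snoc C hd w φ).depth (Fin.castSucc i) = C.depth i := by
  change Fin.snoc (α := fun _ => ℕ) C.depth _ (Fin.castSucc i) = _
  rw [Fin.snoc_castSucc]

open Classical in
theorem PAD_depth_last {a n s d : ℕ} (C : HCircuit a n s) (hd : d ≤ a) (w : Fin d → Fin (n + s))
    (φ : (Fin d → Bool) → Bool) :
    (HCircuit.snoc C hd w φ).depth (Fin.last (n + s)) =
      (Finset.univ.sup fun j => C.depth (w j)) + if Alt φ then 1 else 0 := by
  change Fin.snoc (α := fun _ => ℕ) C.depth _ (Fin.last (n + s)) = _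
  rw [Fin.snoc_last]

theorem PAD_map0 (m n : ℕ) : ∃ e : Fin (n + 0) → Fin (m + (0 + 1)),
    (∀ i (h : i.val < m), e i = Fin.castSucc (n := m + 0) ⟨i.val, h⟩) ∧
      ∀ i, ¬ i.val < m → e i = Fin.last (m + 0) :=
  ⟨fun i => if h : i.val < m then Fin.castSucc (n := m + 0) ⟨i.val, h⟩ else Fin.last (m + 0),
    fun _ h => dif_pos h, fun _ h => dif_neg h⟩

theorem PAD_mapS {m n s : ℕ} (e : Fin (n + s) → Fin (m + (s + 1))) :
    ∃ e' : Fin (n + (s + 1)) → Fin (m + (s + 1 + 1)),
      e' (Fin.last (n + s)) = Fin.last (m + (s + 1)) ∧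
        ∀ j : Fin (n + s), e' (Fin.castSucc j) = Fin.castSucc (e j) :=
  ⟨fun i => Fin.lastCases (motive := fun _ => Fin (m + (s + 1) + 1)) (Fin.last _)
    (fun j => Fin.castSucc (e j)) (i : Fin (n + s + 1)), Fin.lastCases_last,
    fun j => Fin.lastCases_castSucc j⟩

theorem PAD_ind {a m n s : ℕ} (hmn : m ≤ n) (C : HCircuit a n s) :
    ∃ (C' : HCircuit a m (s + 1)) (e : Fin (n + s) → Fin (m + (s + 1))),
      (∀ x i, C'.val x (e i) = C.val (pad x) i) ∧ (∀ i, C'.depth (e i) ≤ C.depth i) ∧
        ∀ k, (∃ i, e i = k) ∨ (C'.depth k = 0 ∧ Monotone fun x => C'.val x k) := by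
  induction C with
  | nil =>
    obtain ⟨e, he1, he2⟩ := PAD_map0 m n
    have hv : ∀ (x : Fin m → Bool) (j : Fin (m + 0)),
        (HCircuit.snoc HCircuit.nil (Nat.zero_le a) Fin.elim0 (fun _ => false)).val x (Fin.castSucc j) = x j :=
      fun x j => PAD_val_castSucc (n := m) (a := a) HCircuit.nil (Nat.zero_le a) Fin.elim0 (fun _ => false) x j
    have hl : ∀ (x : Fin m → Bool),
        (HCircuit.snoc HCircuit.nil (Nat.zero_le a) Fin.elim0 (fun _ => false)).val x (Fin.last (m + 0)) = false :=
      fun x => PAD_val_last (n := m) (a := a) HCircuit.nil (Nat.zero_le a) Fin.elim0 (fun _ => false) x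
    have hd : ∀ (j : Fin (m + 0)),
        (HCircuit.snoc (HCircuit.nil : HCircuit a m 0) (Nat.zero_le a) Fin.elim0 (fun _ => false)).depth
          (Fin.castSucc j) = 0 :=
      fun j => PAD_depth_castSucc (n := m) (a := a) HCircuit.nil (Nat.zero_le a) Fin.elim0 (fun _ => false) j
    have hd' : (HCircuit.snoc (HCircuit.nil : HCircuit a m 0) (Nat.zero_le a) Fin.elim0 (fun _ => false)).depth
          (Fin.last (m + 0)) = 0 := by
      refine (PAD_depth_last HCircuit.nil (Nat.zero_le a) Fin.elim0 (fun _ => false)).trans ?_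
      rw [if_neg]
      · simp
      · rintro ⟨u, v, w, z, -, -, -, -, h, -⟩
        simp at h
    refine ⟨HCircuit.snoc HCircuit.nil (Nat.zero_le a) Fin.elim0 (fun _ => false), e, ?_, ?_, ?_⟩
    · intro x i
      change _ = pad x i
      unfold pad
      by_cases h : i.val < m
      · rw [dif_pos h, he1 i h]
        exact hv x ⟨i.val, h⟩
      · rw [dif_neg h, he2 i h]
        exact hl x
    · intro i
      by_cases h : i.val < m
      · rw [he1 i h]
        exact (hd _).le.trans (Nat.zero_le _)
      · rw [he2 i h]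
        exact hd'.le.trans (Nat.zero_le _)
    · intro k
      refine Fin.lastCases ?_ (fun j => ?_) (k : Fin (m + 0 + 1))
      · right
        refine ⟨hd', ?_⟩
        have : (fun x => (HCircuit.snoc (HCircuit.nil : HCircuit a m 0) (Nat.zero_le a) Fin.elim0
              (fun _ => false)).val x (Fin.last (m + 0))) = fun _ => false := by
          funext x
          exact hl x
        exact this ▸ monotone_const
      · left
        have hj : j.val < m := by have := j.2; omega
        refine ⟨⟨j.val, by omega⟩, ?_⟩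
        exact he1 ⟨j.val, by omega⟩ hj
  | @snoc s d C hd w φ ih =>
    obtain ⟨C', e, h1, h2, h3⟩ := ih
    obtain ⟨e', he1, he2⟩ := PAD_mapS e
    refine ⟨HCircuit.snoc C' hd (fun j => e (w j)) φ, e', ?_, ?_, ?_⟩
    · intro x i
      refine Fin.lastCases ?_ (fun j => ?_) (i : Fin (n + s + 1))
      · refine (congrArg _ he1).trans ?_
        refine (PAD_val_last C' hd (fun j => e (w j)) φ x).trans ?_
        refine Eq.trans ?_ (PAD_val_last C hd w φ (pad x)).symm
        simp only [h1]
      · refine (congrArg _ (he2 j)).trans ?_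
        refine (PAD_val_castSucc C' hd (fun j => e (w j)) φ x (e j)).trans ?_
        refine Eq.trans ?_ (PAD_val_castSucc C hd w φ (pad x) j).symm
        exact h1 x j
    · intro i
      refine Fin.lastCases ?_ (fun j => ?_) (i : Fin (n + s + 1))
      · refine (congrArg _ he1).le.trans ?_
        refine (PAD_depth_last C' hd (fun j => e (w j)) φ).le.trans ?_
        refine le_trans ?_ (PAD_depth_last C hd w φ).ge
        refine Nat.add_le_add_right ?_ _
        exact Finset.sup_mono_fun fun j _ => h2 (w j)
      · refine (congrArg _ (he2 j)).le.trans ?_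
        refine (PAD_depth_castSucc C' hd (fun j => e (w j)) φ (e j)).le.trans ?_
        refine le_trans ?_ (PAD_depth_castSucc C hd w φ j).ge
        exact h2 j
    · intro k
      refine Fin.lastCases ?_ (fun j => ?_) (k : Fin (m + (s + 1) + 1))
      · left
        exact ⟨Fin.last (n + s), he1⟩
      · rcases h3 j with ⟨i, hi⟩ | ⟨h4, h5⟩
        · left
          refine ⟨Fin.castSucc i, ?_⟩
          rw [← hi]
          exact he2 i
        · right
          constructor
          · exact (PAD_depth_castSucc C' hd (fun j => e (w j)) φ j).trans h4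
          · have : (fun x => (HCircuit.snoc C' hd (fun j => e (w j)) φ).val x (Fin.castSucc j)) =
                fun x => C'.val x j := by
              funext x
              exact PAD_val_castSucc C' hd (fun j => e (w j)) φ x j
            exact this ▸ h5

theorem PAD : PAD_stmt := by
  intro a m n s t C o hmn hC
  obtain ⟨C', e, h1, h2, h3⟩ := PAD_ind hmn C
  refine ⟨C', e o, ⟨?_, ?_⟩, fun x => h1 x o⟩
  · intro k
    rcases h3 k with ⟨i, rfl⟩ | ⟨-, h5⟩
    · have : (fun x => C'.val x (e i)) = fun x => C.val (pad x) i := by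
        funext x
        exact h1 x i
      rw [this]
      exact (hC.mono i).comp PAD_mono
    · exact h5
  · intro k
    rcases h3 k with ⟨i, rfl⟩ | ⟨h4, -⟩
    · exact (h2 i).trans (hC.depth_le i)
    · rw [h4]
      exact Nat.zero_le t

end Pool.Agent.HM
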